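import Pool.Agent.Y883.GJ.Stm2

set_option autoImplicit false

/-! Project GJ (helper883), jobs LIFTC and PARSC (helper697): correlation versions of the lifting
inequality and of the identity of Parseval. -/

namespace Pool.Agent.Y697.GJ

open Finset
open Pool.Agent.H807R2.Dav (ee ee_add ee_add_int ee_int ee_pow ee_zero norm_ee)
open Pool.Agent.Y883.GJ

/-- the phase of a residue class modulo `M` -/
noncomputable def ph (M : ℕ) (h : ℤ) (l : ZMod M) : ℂ := ee ((l.val : ℝ) * ((h : ℝ) / M))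

theorem ph_nat {M : ℕ} [NeZero M] (h : ℤ) (n : ℕ) :
    ph M h (n : ZMod M) = ee ((n : ℝ) * ((h : ℝ) / M)) := by
  unfold ph
  have hM : (M : ℝ) ≠ 0 := by exact_mod_cast NeZero.ne M
  obtain ⟨d, hd⟩ : ∃ d, d = n / M := ⟨_, rfl⟩
  have h1 : (n : ℝ) = (M : ℝ) * (d : ℝ) + ((n % M : ℕ) : ℝ) := by
    rw [hd]
    exact_mod_cast (Nat.div_add_mod n M).symm
  have h2 : (n : ℝ) * ((h : ℝ) / M) =
      ((n % M : ℕ) : ℝ) * ((h : ℝ) / M) + (((d : ℤ) * h : ℤ) : ℝ) := by
    rw [h1]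
    push_cast
    field_simp
    ring
  rw [ZMod.val_natCast, h2, ee_add_int]

theorem ph_add {M : ℕ} [NeZero M] (h : ℤ) (x y : ZMod M) :
    ph M h (x + y) = ph M h x * ph M h y := by
  have hx : ((x.val : ℕ) : ZMod M) = x := ZMod.natCast_zmod_val x
  have hy : ((y.val : ℕ) : ZMod M) = y := ZMod.natCast_zmod_val y
  have h1 : ph M h (x + y) = ph M h ((x.val + y.val : ℕ) : ZMod M) := by
    rw [Nat.cast_add, hx, hy]
  rw [h1, ph_nat]
  unfold ph
  rw [← ee_add]
  congr 1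
  push_cast
  ring

theorem norm_ph {M : ℕ} (h : ℤ) (x : ZMod M) : ‖ph M h x‖ = 1 := norm_ee _

theorem ph_sub {M : ℕ} [NeZero M] (h : ℤ) (x y : ZMod M) :
    ph M h x * (starRingEnd ℂ) (ph M h (x - y)) = ph M h y := by
  have h1 : ph M h x = ph M h (x - y) * ph M h y := by
    rw [← ph_add, sub_add_cancel]
  have h2 : ph M h (x - y) * (starRingEnd ℂ) (ph M h (x - y)) = 1 := by
    rw [Complex.mul_conj, Complex.normSq_eq_norm_sq, norm_ph]
    norm_num
  calc ph M h x * (starRingEnd ℂ) (ph M h (x - y))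
      = ph M h y * (ph M h (x - y) * (starRingEnd ℂ) (ph M h (x - y))) := by
        rw [h1]
        ring
    _ = ph M h y := by rw [h2, mul_one]

theorem cl_ph {M N : ℕ} [NeZero M] (F : ℕ → ℂ) (h : ℤ) {β η : ℝ} (hβ : β = (h : ℝ) / M + η)
    (l : ZMod M) : cl M N F β l = ph M h l * cl M N F η l := by
  unfold cl
  rw [Finset.mul_sum]
  refine Finset.sum_congr rfl fun n hn => ?_
  rw [Finset.mem_filter] at hn
  rw [← hn.2, ph_nat, hβ, mul_add, ee_add]
  ring

theorem cl_fib {q M N : ℕ} [NeZero q] [NeZero M] (φ : ZMod M →+* ZMod q) (F : ℕ → ℂ) (β : ℝ)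
    (l : ZMod q) :
    cl q N F β l = ∑ l1 ∈ univ.filter (fun x => φ x = l), cl M N F β l1 := by
  unfold cl
  rw [← Finset.sum_fiberwise_of_maps_to (s := (Icc 1 N).filter (fun n : ℕ => (n : ZMod q) = l))
    (t := univ.filter (fun x => φ x = l)) (g := fun n : ℕ => (n : ZMod M))]
  · refine Finset.sum_congr rfl fun l1 h1 => ?_
    rw [Finset.mem_filter] at h1
    refine Finset.sum_congr ?_ fun _ _ => rfl
    ext n
    simp only [Finset.mem_filter]
    constructor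
    · rintro ⟨⟨a1, _⟩, a3⟩
      exact ⟨a1, a3⟩
    · rintro ⟨a1, a3⟩
      refine ⟨⟨a1, ?_⟩, a3⟩
      rw [← h1.2, ← a3, map_natCast]
  · intro n hn
    rw [Finset.mem_filter] at hn ⊢
    exact ⟨Finset.mem_univ _, by rw [map_natCast, hn.2]⟩

theorem lift_sum {q M : ℕ} [NeZero q] [NeZero M] (φ : ZMod M →+* ZMod q) (g f : ZMod M → ℂ)
    (a : ZMod q) :
    ∑ l : ZMod q, (∑ l1 ∈ univ.filter (fun x => φ x = l), g l1) *
      (starRingEnd ℂ) (∑ l2 ∈ univ.filter (fun x => φ x = l - a), f l2) =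
    ∑ a' ∈ univ.filter (fun x => φ x = a), ∑ l1 : ZMod M,
      g l1 * (starRingEnd ℂ) (f (l1 - a')) := by
  rw [Finset.sum_comm]
  have e1 : ∀ l : ZMod q, (∑ l1 ∈ univ.filter (fun x => φ x = l), g l1) *
      (starRingEnd ℂ) (∑ l2 ∈ univ.filter (fun x => φ x = l - a), f l2) =
      ∑ l1 ∈ univ.filter (fun x => φ x = l), g l1 *
        (starRingEnd ℂ) (∑ l2 ∈ univ.filter (fun x => φ x = φ l1 - a), f l2) := by
    intro l
    rw [Finset.sum_mul]
    refine Finset.sum_congr rfl fun l1 h1 => ?_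
    rw [(Finset.mem_filter.1 h1).2]
  rw [Finset.sum_congr rfl fun l _ => e1 l, Finset.sum_fiberwise]
  refine Finset.sum_congr rfl fun l1 _ => ?_
  rw [map_sum, Finset.mul_sum]
  refine Finset.sum_nbij' (fun l2 => l1 - l2) (fun a' => l1 - a') ?_ ?_ ?_ ?_ ?_
  · intro l2 h2
    rw [Finset.mem_filter] at h2 ⊢
    refine ⟨Finset.mem_univ _, ?_⟩
    rw [map_sub, h2.2]
    ring
  · intro a' h2
    rw [Finset.mem_filter] at h2 ⊢
    refine ⟨Finset.mem_univ _, ?_⟩
    rw [map_sub, h2.2]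
  · intro l2 _
    ring
  · intro a' _
    ring
  · intro l2 _
    rw [sub_sub_cancel]

theorem liftC : LiftCStm := by
  intro q r N _ _ G F h β η hβ a
  have hd : q ∣ r * q := Dvd.intro_left r rfl
  obtain ⟨φ, hφ⟩ : ∃ φ : ZMod (r * q) →+* ZMod q, φ = ZMod.castHom hd (ZMod q) := ⟨_, rfl⟩
  have hv : ∀ x : ZMod (r * q), ((x.val : ℕ) : ZMod q) = φ x := by
    intro x
    rw [ZMod.natCast_val, hφ, ZMod.castHom_apply]
  have e1 : ∑ l : ZMod q, cl q N G β l * (starRingEnd ℂ) (cl q N F β (l - a)) =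
      ∑ a' ∈ univ.filter (fun x => φ x = a), ∑ l1 : ZMod (r * q),
        cl (r * q) N G β l1 * (starRingEnd ℂ) (cl (r * q) N F β (l1 - a')) := by
    rw [← lift_sum φ (fun x => cl (r * q) N G β x) (fun x => cl (r * q) N F β x) a]
    refine Finset.sum_congr rfl fun l _ => ?_
    rw [cl_fib φ G β l, cl_fib φ F β (l - a)]
  rw [e1]
  simp only [hv]
  refine (norm_sum_le _ _).trans (Finset.sum_le_sum fun a' _ => ?_)
  have e2 : ∑ l1 : ZMod (r * q),
      cl (r * q) N G β l1 * (starRingEnd ℂ) (cl (r * q) N F β (l1 - a')) =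
      ph (r * q) h a' * ∑ l : ZMod (r * q),
        cl (r * q) N G η l * (starRingEnd ℂ) (cl (r * q) N F η (l - a')) := by
    rw [Finset.mul_sum]
    refine Finset.sum_congr rfl fun l1 _ => ?_
    rw [cl_ph G h hβ, cl_ph F h hβ, map_mul, ← ph_sub h l1 a']
    ring
  rw [e2, norm_mul, norm_ph, one_mul]

/-! ### Parseval -/

theorem conj_ee (x : ℝ) : (starRingEnd ℂ) (ee x) = ee (-x) := by
  unfold ee
  rw [← Complex.exp_conj]
  congr 1
  simp only [map_mul, Complex.conj_ofReal, Complex.conj_I, map_ofNat]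
  push_cast
  ring

theorem ee_ne_one {x : ℝ} (hx : ∀ n : ℤ, x ≠ n) : ee x ≠ 1 := by
  unfold ee
  intro h
  obtain ⟨n, hn⟩ := Complex.exp_eq_one_iff.1 h
  apply hx n
  have h1 : (2 * (Real.pi : ℂ) * Complex.I) ≠ 0 := Complex.two_pi_I_ne_zero
  have h2 : (x : ℂ) = n := by
    apply mul_left_cancel₀ h1
    rw [hn]
    ring
  exact_mod_cast h2

theorem geo_sum {M : ℕ} (hM : M ≠ 0) (d : ℤ) :
    ∑ t ∈ range M, ee ((d : ℝ) * ((t : ℝ) / M)) = if (M : ℤ) ∣ d then (M : ℂ) else 0 := by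
  have hM' : (M : ℝ) ≠ 0 := by exact_mod_cast hM
  have h1 : ∀ t : ℕ, ee ((d : ℝ) * ((t : ℝ) / M)) = ee ((d : ℝ) / M) ^ t := by
    intro t
    rw [← ee_pow]
    congr 1
    ring
  simp only [h1]
  split_ifs with hd
  · obtain ⟨k, rfl⟩ := hd
    have h2 : ee ((((M : ℤ) * k : ℤ) : ℝ) / M) = 1 := by
      have : (((M : ℤ) * k : ℤ) : ℝ) / M = (k : ℝ) := by
        push_cast
        field_simp
      rw [this, ee_int]
    rw [h2]
    simp
  · have h2 : ee ((d : ℝ) / M) ≠ 1 := by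
      apply ee_ne_one
      intro n hn
      apply hd
      refine ⟨n, ?_⟩
      rw [div_eq_iff hM'] at hn
      have : (d : ℝ) = ((M : ℤ) * n : ℤ) := by
        push_cast
        rw [hn]
        ring
      exact_mod_cast this
    rw [geom_sum_eq h2]
    have h3 : ee ((d : ℝ) / M) ^ M = 1 := by
      rw [← ee_pow]
      have : (M : ℝ) * ((d : ℝ) / M) = (d : ℝ) := by field_simp
      rw [this, ee_int]
    rw [h3, sub_self, zero_div]

theorem pars_gen {M : ℕ} (hM : M ≠ 0) (K : Finset ℤ)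
    (hK : ∀ k ∈ K, ∀ k' ∈ K, (M : ℤ) ∣ k - k' → k = k') (H : ℤ → ℂ) :
    ∑ t ∈ range M, ‖∑ k ∈ K, H k * ee ((k : ℝ) * ((t : ℝ) / M))‖ ^ 2 =
      (M : ℝ) * ∑ k ∈ K, ‖H k‖ ^ 2 := by
  have hc : ((∑ t ∈ range M, ‖∑ k ∈ K, H k * ee ((k : ℝ) * ((t : ℝ) / M))‖ ^ 2 : ℝ) : ℂ) =
      (((M : ℝ) * ∑ k ∈ K, ‖H k‖ ^ 2 : ℝ) : ℂ) := by
    push_cast
    have h1 : ∀ t : ℕ, ((‖∑ k ∈ K, H k * ee ((k : ℝ) * ((t : ℝ) / M))‖ : ℝ) : ℂ) ^ 2 =
        ∑ k ∈ K, ∑ k' ∈ K, H k * (starRingEnd ℂ) (H k') *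
          ee (((k - k' : ℤ) : ℝ) * ((t : ℝ) / M)) := by
      intro t
      rw [← Complex.ofReal_pow, ← Complex.normSq_eq_norm_sq, ← Complex.mul_conj, map_sum,
        Finset.sum_mul_sum]
      refine Finset.sum_congr rfl fun k _ => Finset.sum_congr rfl fun k' _ => ?_
      rw [map_mul, conj_ee]
      have : ee (((k - k' : ℤ) : ℝ) * ((t : ℝ) / M)) =
          ee ((k : ℝ) * ((t : ℝ) / M)) * ee (-((k' : ℝ) * ((t : ℝ) / M))) := by
        rw [← ee_add]
        congr 1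
        push_cast
        ring
      rw [this]
      ring
    rw [Finset.sum_congr rfl fun t _ => h1 t, Finset.sum_comm, Finset.mul_sum]
    refine Finset.sum_congr rfl fun k hk => ?_
    rw [Finset.sum_comm]
    have h2 : ∀ k' ∈ K, ∑ t ∈ range M, H k * (starRingEnd ℂ) (H k') *
        ee (((k - k' : ℤ) : ℝ) * ((t : ℝ) / M)) =
        if k = k' then (M : ℂ) * (H k * (starRingEnd ℂ) (H k')) else 0 := by
      intro k' hk'
      rw [← Finset.mul_sum, geo_sum hM]
      by_cases hkk : k = k'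
      · subst hkk
        rw [sub_self, if_pos (dvd_zero _), if_pos rfl]
        ring
      · rw [if_neg hkk, if_neg fun hd => hkk (hK k hk k' hk' hd), mul_zero]
    rw [Finset.sum_congr rfl h2, Finset.sum_ite_eq K k, if_pos hk, Complex.mul_conj,
      Complex.normSq_eq_norm_sq]
    push_cast
    ring
  exact_mod_cast hc

theorem cor_sum {q N : ℕ} [NeZero q] (G F : ℕ → ℂ) (β : ℝ) (a : ZMod q) :
    ∑ l : ZMod q, cl q N G β l * (starRingEnd ℂ) (cl q N F β (l - a)) =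
      ∑ k ∈ (Icc (-(N : ℤ)) N).filter (fun k : ℤ => (k : ZMod q) = a),
        (∑ b ∈ Icc 1 N, ∑ c ∈ Icc 1 N,
          if (b : ℤ) - c = k then G b * (starRingEnd ℂ) (F c) else 0) * ee ((k : ℝ) * β) := by
  have e1 : ∑ l : ZMod q, cl q N G β l * (starRingEnd ℂ) (cl q N F β (l - a)) =
      ∑ b ∈ Icc 1 N, ∑ c ∈ Icc 1 N, if ((((b : ℤ) - c : ℤ) : ZMod q) = a) then
        G b * (starRingEnd ℂ) (F c) * ee ((((b : ℤ) - c : ℤ) : ℝ) * β) else 0 := by
    have s1 : ∀ l : ZMod q, cl q N G β l * (starRingEnd ℂ) (cl q N F β (l - a)) =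
        ∑ b ∈ (Icc 1 N).filter (fun n : ℕ => (n : ZMod q) = l), G b * ee (b * β) *
          (starRingEnd ℂ) (cl q N F β ((b : ZMod q) - a)) := by
      intro l
      rw [cl, Finset.sum_mul]
      refine Finset.sum_congr rfl fun b hb => ?_
      rw [(Finset.mem_filter.1 hb).2]
    rw [Finset.sum_congr rfl fun l _ => s1 l, Finset.sum_fiberwise]
    refine Finset.sum_congr rfl fun b _ => ?_
    rw [cl, map_sum, Finset.mul_sum, Finset.sum_filter]
    refine Finset.sum_congr rfl fun c _ => ?_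
    have hiff : ((c : ZMod q) = (b : ZMod q) - a) ↔ ((((b : ℤ) - c : ℤ) : ZMod q) = a) := by
      push_cast
      constructor
      · intro h
        rw [h]
        ring
      · intro h
        rw [← h]
        ring
    by_cases hc : (c : ZMod q) = (b : ZMod q) - a
    · rw [if_pos hc, if_pos (hiff.1 hc), map_mul, conj_ee]
      have : ee ((((b : ℤ) - c : ℤ) : ℝ) * β) = ee ((b : ℝ) * β) * ee (-((c : ℝ) * β)) := by
        rw [← ee_add]
        congr 1
        push_cast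
        ring
      rw [this]
      ring
    · rw [if_neg hc, if_neg fun h => hc (hiff.2 h)]
  rw [e1]
  have e2 : ∀ k ∈ (Icc (-(N : ℤ)) N).filter (fun k : ℤ => (k : ZMod q) = a),
      (∑ b ∈ Icc 1 N, ∑ c ∈ Icc 1 N,
          if (b : ℤ) - c = k then G b * (starRingEnd ℂ) (F c) else 0) * ee ((k : ℝ) * β) =
      ∑ b ∈ Icc 1 N, ∑ c ∈ Icc 1 N, if (b : ℤ) - c = k then
        G b * (starRingEnd ℂ) (F c) * ee ((((b : ℤ) - c : ℤ) : ℝ) * β) else 0 := by
    intro k _
    rw [Finset.sum_mul]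
    refine Finset.sum_congr rfl fun b _ => ?_
    rw [Finset.sum_mul]
    refine Finset.sum_congr rfl fun c _ => ?_
    by_cases hk : (b : ℤ) - c = k
    · rw [if_pos hk, if_pos hk, hk]
    · rw [if_neg hk, if_neg hk, zero_mul]
  rw [Finset.sum_congr rfl e2]
  symm
  rw [Finset.sum_comm]
  refine Finset.sum_congr rfl fun b hb => ?_
  rw [Finset.sum_comm]
  refine Finset.sum_congr rfl fun c hc => ?_
  rw [Finset.sum_ite_eq]
  rw [Finset.mem_Icc] at hb hc
  have hiff : ((b : ℤ) - c ∈ (Icc (-(N : ℤ)) N).filter (fun k : ℤ => (k : ZMod q) = a)) ↔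
      ((((b : ℤ) - c : ℤ) : ZMod q) = a) := by
    rw [Finset.mem_filter, Finset.mem_Icc]
    constructor
    · exact fun h => h.2
    · exact fun h => ⟨⟨by omega, by omega⟩, h⟩
  by_cases hk : ((((b : ℤ) - c : ℤ) : ZMod q) = a)
  · rw [if_pos hk, if_pos (hiff.2 hk)]
  · rw [if_neg hk, if_neg (fun h => hk (hiff.1 h))]

theorem parsC : ParsCStm := by
  intro q N _ G F hN a
  have h1 := pars_gen (M := 2 * N + 1) (by omega)
    ((Icc (-(N : ℤ)) N).filter (fun k : ℤ => (k : ZMod q) = a)) (by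
      intro k hk k' hk' hd
      rw [Finset.mem_filter, Finset.mem_Icc] at hk hk'
      obtain ⟨m, hm⟩ := hd
      have h2 : m = 0 := by
        by_contra hm0
        rcases lt_or_gt_of_ne hm0 with h | h
        · have : ((2 * N + 1 : ℕ) : ℤ) * m ≤ ((2 * N + 1 : ℕ) : ℤ) * (-1) :=
            mul_le_mul_of_nonneg_left (by omega) (by omega)
          push_cast at this hm
          omega
        · have : ((2 * N + 1 : ℕ) : ℤ) * 1 ≤ ((2 * N + 1 : ℕ) : ℤ) * m :=
            mul_le_mul_of_nonneg_left (by omega) (by omega)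
          push_cast at this hm
          omega
      rw [h2, mul_zero] at hm
      omega)
    (fun k => ∑ b ∈ Icc 1 N, ∑ c ∈ Icc 1 N,
      if (b : ℤ) - c = k then G b * (starRingEnd ℂ) (F c) else 0)
  rw [← h1]
  refine Finset.sum_congr rfl fun t _ => ?_
  rw [cor_sum]

end Pool.Agent.Y697.GJ
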